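import Pool.Agent.H30.SL.Stm

set_option autoImplicit false

namespace Pool.Agent.H9.SL

open Finset Pool.Agent.H30.SL

attribute [local instance 100] LieRing.ofAssociativeRing

theorem scale (K : Type) [Field K] (n : ℕ → K)
    (φ : FreeLieAlgebra K ℕ →ₗ⁅K⁆ FreeLieAlgebra K ℕ)
    (hφ : ∀ i, φ (FreeLieAlgebra.of K i) = n i • FreeLieAlgebra.of K i)
    {l : List ℕ} {T : FreeLieAlgebra K ℕ} (h : MW K l T) : φ T = (l.map n).prod • T := by
  induction h with
  | of i => simp [hφ]
  | lie hs ht ihs iht =>
    rw [LieHom.map_lie, ihs, iht, smul_lie, lie_smul, smul_smul, List.map_append, List.prod_append]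

theorem back_sub (K : Type) [Field K] (D : ℕ) (w : Fin D → ℕ) (S : Finset (Fin D)) (i : ℕ) :
    back K D w (sub K D w S (FreeLieAlgebra.of K i)) =
      ((S.filter (fun j => w j = i)).card : K) • FreeLieAlgebra.of K i := by
  unfold sub
  rw [FreeLieAlgebra.lift_of_apply, map_sum]
  have h : ∀ j ∈ S.filter (fun j => w j = i), back K D w (FreeLieAlgebra.of K (j : ℕ)) =
      FreeLieAlgebra.of K i := by
    intro j hj
    unfold back
    rw [FreeLieAlgebra.lift_of_apply, dif_pos j.2]
    simp only [Fin.eta]
    rw [(mem_filter.mp hj).2]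
  rw [Finset.sum_congr rfl h, Finset.sum_const]
  exact (Nat.cast_smul_eq_nsmul K _ _).symm

theorem back_Ph (K : Type) [Field K] (D : ℕ) (w : Fin D → ℕ) {l : List ℕ}
    {T : FreeLieAlgebra K ℕ} (h : MW K l T) :
    back K D w (Ph K D w T) = (∑ S : Finset (Fin D), (-1 : K) ^ (D - S.card) *
      (l.map (fun i => ((S.filter (fun j => w j = i)).card : K))).prod) • T := by
  unfold Ph
  rw [map_sum, Finset.sum_smul]
  refine Finset.sum_congr rfl (fun S _ => ?_)
  have h1 := scale K (fun i => ((S.filter (fun j => w j = i)).card : K))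
    ((back K D w).comp (sub K D w S)) (fun i => back_sub K D w S i) h
  rw [LieHom.comp_apply] at h1
  rw [map_smul, h1, smul_smul]

theorem sgn (K : Type) [Field K] {D : ℕ} (R : Finset (Fin D)) :
    ∑ S : Finset (Fin D), (if R ⊆ S then (-1 : K) ^ (D - S.card) else 0) =
      if R = univ then 1 else 0 := by
  classical
  have h1 : ∑ S : Finset (Fin D), (if R ⊆ S then (-1 : K) ^ (D - S.card) else 0) =
      ∑ U : Finset (Fin D), (if U ⊆ Rᶜ then (-1 : K) ^ U.card else 0) := by
    refine Fintype.sum_equiv (Function.Involutive.toPerm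
      (compl : Finset (Fin D) → Finset (Fin D)) compl_involutive) _ _ (fun S => ?_)
    have h2 : ((Function.Involutive.toPerm
      (compl : Finset (Fin D) → Finset (Fin D)) compl_involutive) S) = Sᶜ := rfl
    rw [h2, Finset.card_compl, Fintype.card_fin]
    exact if_congr Finset.compl_subset_compl.symm rfl rfl
  rw [h1, ← Finset.sum_filter]
  have h3 : (univ.filter (fun U : Finset (Fin D) => U ⊆ Rᶜ)) = Rᶜ.powerset := by
    ext U
    simp
  rw [h3]
  have h4 := Finset.sum_powerset_neg_one_pow_card (x := Rᶜ)
  have h5 := congrArg (fun z : ℤ => (z : K)) h4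
  push_cast at h5
  rw [h5]
  by_cases hR : R = univ
  · subst hR
    simp
  · rw [if_neg hR, if_neg]
    intro h6
    exact hR (by rwa [Finset.compl_eq_empty_iff] at h6)

theorem card_surj (D : ℕ) :
    (univ.filter (fun f : Fin D → Fin D => Function.Surjective f)).card = D.factorial := by
  classical
  rw [← Fintype.card_subtype]
  have h : Fintype.card (Equiv.Perm (Fin D)) = D.factorial := by
    rw [Fintype.card_perm, Fintype.card_fin]
  rw [← h]
  symm
  refine Fintype.card_congr (Equiv.ofBijective
    (fun σ : Equiv.Perm (Fin D) => (⟨σ, σ.surjective⟩ : {f : Fin D → Fin D // Function.Surjective f}))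
    ⟨?_, ?_⟩)
  · intro σ τ h
    exact DFunLike.coe_injective (congrArg Subtype.val h)
  · rintro ⟨f, hf⟩
    exact ⟨Equiv.ofBijective f ⟨Finite.injective_iff_surjective.mpr hf, hf⟩, rfl⟩

theorem count (K : Type) [Field K] (D N : ℕ) (a : Fin D → ℕ) (ha : ∀ k, a k < N) :
    ∑ w : Fin D → Fin N, ∑ S : Finset (Fin D), (-1 : K) ^ (D - S.card) *
      ∏ k : Fin D, ((S.filter (fun j => ((w j : Fin N) : ℕ) = a k)).card : K) = (D.factorial : K) := by
  classical
  have h1 : ∀ (w : Fin D → Fin N), ∑ S : Finset (Fin D), (-1 : K) ^ (D - S.card) *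
      ∏ k : Fin D, ((S.filter (fun j => ((w j : Fin N) : ℕ) = a k)).card : K) =
      ∑ f : Fin D → Fin D, (if Function.Surjective f then
        (if ∀ k, ((w (f k) : Fin N) : ℕ) = a k then (1 : K) else 0) else 0) := by
    intro w
    have h2 : ∀ S : Finset (Fin D),
        ∏ k : Fin D, ((S.filter (fun j => ((w j : Fin N) : ℕ) = a k)).card : K) =
        ∑ f : Fin D → Fin D, (if (univ.image f) ⊆ S then
          (if ∀ k, ((w (f k) : Fin N) : ℕ) = a k then (1 : K) else 0) else 0) := by
      intro S
      have h3 : ∀ k : Fin D, ((S.filter (fun j => ((w j : Fin N) : ℕ) = a k)).card : K) =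
          ∑ j ∈ S, (if ((w j : Fin N) : ℕ) = a k then (1 : K) else 0) := by
        intro k
        rw [Finset.sum_boole]
      simp_rw [h3]
      rw [Finset.prod_univ_sum, ← Finset.sum_filter]
      refine Finset.sum_congr ?_ (fun f _ => ?_)
      · ext f
        rw [Fintype.mem_piFinset, mem_filter]
        constructor
        · intro h
          refine ⟨mem_univ _, ?_⟩
          intro y hy
          obtain ⟨k, -, rfl⟩ := mem_image.mp hy
          exact h k
        · rintro ⟨-, h⟩ k
          exact h (mem_image_of_mem f (mem_univ k))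
      · rw [Finset.prod_ite_zero]
        simp
    simp_rw [h2, Finset.mul_sum]
    rw [Finset.sum_comm]
    refine Finset.sum_congr rfl (fun f _ => ?_)
    have h4 : ∀ S : Finset (Fin D), (-1 : K) ^ (D - S.card) * (if (univ.image f) ⊆ S then
          (if ∀ k, ((w (f k) : Fin N) : ℕ) = a k then (1 : K) else 0) else 0) =
        (if (univ.image f) ⊆ S then (-1 : K) ^ (D - S.card) else 0) *
          (if ∀ k, ((w (f k) : Fin N) : ℕ) = a k then (1 : K) else 0) := by
      intro S
      by_cases h5 : univ.image f ⊆ S
      · rw [if_pos h5, if_pos h5]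
      · rw [if_neg h5, if_neg h5, mul_zero, zero_mul]
    simp_rw [h4]
    rw [← Finset.sum_mul, sgn]
    by_cases hf : Function.Surjective f
    · rw [if_pos (Finset.image_univ_of_surjective hf), if_pos hf, one_mul]
    · rw [if_neg hf, if_neg, zero_mul]
      intro h5
      apply hf
      intro y
      have : y ∈ univ.image f := by rw [h5]; exact mem_univ y
      obtain ⟨k, -, hk⟩ := mem_image.mp this
      exact ⟨k, hk⟩
  simp_rw [h1]
  rw [Finset.sum_comm]
  have h6 : ∀ f : Fin D → Fin D, ∑ w : Fin D → Fin N, (if Function.Surjective f then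
        (if ∀ k, ((w (f k) : Fin N) : ℕ) = a k then (1 : K) else 0) else 0) =
      if Function.Surjective f then 1 else 0 := by
    intro f
    by_cases hf : Function.Surjective f
    · simp only [if_pos hf]
      have hb : Function.Bijective f := ⟨Finite.injective_iff_surjective.mpr hf, hf⟩
      set e := Equiv.ofBijective f hb with he
      have hef : ∀ k, e k = f k := fun k => rfl
      rw [Finset.sum_eq_single (fun j => (⟨a (e.symm j), ha _⟩ : Fin N))]
      · rw [if_pos]
        intro k
        show a (e.symm (f k)) = a k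
        rw [← hef, Equiv.symm_apply_apply]
      · intro w _ hw
        rw [if_neg]
        intro h7
        apply hw
        funext j
        apply Fin.ext
        have h8 := h7 (e.symm j)
        rw [← hef, Equiv.apply_symm_apply] at h8
        exact h8
      · intro h; exact absurd (mem_univ _) h
    · simp only [if_neg hf, Finset.sum_const_zero]
  rw [Finset.sum_congr rfl (fun f _ => h6 f), Finset.sum_boole, card_surj]

theorem t_POB : ∀ (K : Type) [Field K] (D : ℕ) (l : List ℕ) (T : FreeLieAlgebra K ℕ), MW K l T →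
    l.length = D → ∀ N : ℕ, (∀ i ∈ l, i < N) →
      ∑ w : Fin D → Fin N, back K D (fun j => (w j : ℕ)) (Ph K D (fun j => (w j : ℕ)) T)
        = (D.factorial : K) • T := by
  intro K _ D l T hT hl N hN
  subst hl
  rw [Finset.sum_congr rfl (fun w _ => back_Ph K l.length (fun j => ((w j : Fin N) : ℕ)) hT),
    ← Finset.sum_smul]
  congr 1
  rw [← count K l.length N (fun k => l[k]) (fun k => hN _ (List.getElem_mem _))]
  refine Finset.sum_congr rfl (fun w _ => Finset.sum_congr rfl (fun S _ => ?_))
  congr 1
  rw [← List.prod_ofFn]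
  congr 1
  refine List.ext_getElem (by simp) (fun k h1 h2 => ?_)
  simp

end Pool.Agent.H9.SL
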